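import Mathlib

set_option autoImplicit false

/-!
Global left pseudo-resolvents in an arbitrary complex unital Banach algebra.

Outline of the proof.  Let `R < 1` and let `B` be the closure of the `A`-valued polynomials in
`C(closed disc of radius R, A)`, with central coordinate function `z`.
1. If `M` is a maximal left ideal of `B`, then `z` acts on the simple module `B / M` as a scalar
   `μ` with `‖μ‖ ≤ R`; hence an element of `B` that is pointwise left invertible is left invertible
   in `B` (Bochner, Phillips, Allan).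
2. Moving along `a - t z`, `0 ≤ t ≤ 1`, gives an invertible `k` in `B` with `k a = a - z`.
3. Put `p = 1 - a L` with `L a = 1` and approximate `k` by a polynomial `q`; then
   `K = k + (q - k) p` is invertible in `B` and `K a = a - z`.
4. Replacing `z` by `a` in `q p` (coefficients on the right) gives a constant `s p` with
   `(a - z) L + s p = K (1 + a w p)` and `(a w p)^2 = 0`, so `(a - z) L + s p` is invertible in `B`.
5. `b = L ((a - 0) L + s p)⁻¹` satisfies `b a = 1` and `1 - λ b` is invertible for `‖λ‖ ≤ R`;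
   `g(λ) = (1 - λ b)⁻¹ b` is the required analytic function.
-/

open Polynomial

namespace Pool.Agent.Results.MP_17a4eb_an.GlobalPseudoResolvent


/-- A central element acts as a scalar on the simple module `B / M`. -/
theorem exists_scalar {B : Type*} [NormedRing B] [NormedAlgebra ℂ B] [CompleteSpace B]
    (z : B) (hz : ∀ x, z * x = x * z) (R : ℝ) (hR : ∀ x, ‖z * x‖ ≤ R * ‖x‖)
    (M : Submodule B B) (hM : IsCoatom M) :
    ∃ μ : ℂ, ‖μ‖ ≤ R ∧ z - algebraMap ℂ B μ ∈ M := by
  have hmax : Ideal.IsMaximal (M : Ideal B) := ⟨hM⟩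
  have hcl : IsClosed (M : Set B) := by
    have := hmax.closure_eq
    refine isClosed_of_closure_subset ?_
    intro x hx
    have : x ∈ Ideal.closure (M : Ideal B) := hx
    rw [hmax.closure_eq] at this
    exact this
  have := hcl
  have hsimple : IsSimpleModule B (B ⧸ M) := isSimpleModule_iff_isCoatom.mpr hM
  have : Nontrivial (B ⧸ M) := IsSimpleModule.nontrivial B (B ⧸ M)
  -- multiplication by w, for w central
  let mulR : ∀ w : B, (∀ x, w * x = x * w) → ((B ⧸ M) →ₗ[B] (B ⧸ M)) := fun w hw =>
    Submodule.mapQ M M (LinearMap.toSpanSingleton B B w) (by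
      intro x hx
      simp only [Submodule.mem_comap, LinearMap.toSpanSingleton_apply, smul_eq_mul]
      rw [← hw]
      exact M.smul_mem w hx)
  have mulR_mk : ∀ (w : B) (hw : ∀ x, w * x = x * w) (x : B),
      mulR w hw (Submodule.Quotient.mk x) = Submodule.Quotient.mk (x * w) := by
    intro w hw x
    simp [mulR]
  have hRnn : 0 ≤ R := by
    by_contra hneg
    push Not at hneg
    have h1 := hR 1
    have h2 : (1 : B) ≠ 0 := by
      intro h10
      apply hM.1
      rw [Submodule.eq_top_iff']
      intro x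
      have : x = 0 := by rw [← mul_one x, h10, mul_zero]
      rw [this]; exact M.zero_mem
    have h3 : 0 < ‖(1 : B)‖ := norm_pos_iff.mpr h2
    have h4 := norm_nonneg (z * 1)
    nlinarith
  -- the continuous linear operator
  let T : (B ⧸ M) →L[ℂ] (B ⧸ M) :=
    LinearMap.mkContinuous
      { toFun := mulR z hz
        map_add' := fun x y => (mulR z hz).map_add x y
        map_smul' := fun c x => by
          obtain ⟨y, rfl⟩ := Submodule.Quotient.mk_surjective M x
          rw [← Submodule.Quotient.mk_smul, mulR_mk z hz, mulR_mk z hz, RingHom.id_apply,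
            ← Submodule.Quotient.mk_smul, smul_mul_assoc] }
      R (by
        intro x
        apply le_of_forall_pos_le_add
        intro ε hε
        obtain ⟨y, hy, hyn⟩ := Submodule.Quotient.norm_mk_lt x (show 0 < ε / (R + 1) by positivity)
        subst hy
        change ‖mulR z hz (Submodule.Quotient.mk y)‖ ≤ _
        rw [mulR_mk z hz, ← hz]
        calc ‖(Submodule.Quotient.mk (z * y) : B ⧸ M)‖ ≤ ‖z * y‖ := Submodule.Quotient.norm_mk_le _ _
          _ ≤ R * ‖y‖ := hR y
          _ ≤ R * (‖(Submodule.Quotient.mk y : B ⧸ M)‖ + ε / (R + 1)) := by gcongr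
          _ = R * ‖(Submodule.Quotient.mk y : B ⧸ M)‖ + R * (ε / (R + 1)) := by ring
          _ ≤ R * ‖(Submodule.Quotient.mk y : B ⧸ M)‖ + ε := by
            gcongr
            rw [mul_div_assoc', div_le_iff₀ (by positivity)]
            nlinarith)
  have hT : ∀ x : B, T (Submodule.Quotient.mk x) = Submodule.Quotient.mk (x * z) := mulR_mk z hz
  obtain ⟨μ, hμ⟩ := spectrum.nonempty T
  have hμR : ‖μ‖ ≤ R := by
    calc ‖μ‖ ≤ ‖T‖ := spectrum.norm_le_norm_of_mem hμ
      _ ≤ R := LinearMap.mkContinuous_norm_le _ hRnn _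
  refine ⟨μ, hμR, ?_⟩
  have hcen : ∀ x, (z - algebraMap ℂ B μ) * x = x * (z - algebraMap ℂ B μ) := by
    intro x
    rw [sub_mul, mul_sub, hz, Algebra.commutes]
  rcases LinearMap.bijective_or_eq_zero (mulR (z - algebraMap ℂ B μ) hcen) with hb | h0
  · exfalso
    have hunit : IsUnit (T - algebraMap ℂ _ μ) := by
      rw [ContinuousLinearMap.isUnit_iff_bijective]
      convert hb using 1
      ext x
      obtain ⟨y, rfl⟩ := Submodule.Quotient.mk_surjective M x
      rw [mulR_mk _ hcen, mul_sub, Submodule.Quotient.mk_sub]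
      simp only [sub_apply, hT]
      congr 1
      rw [← Algebra.commutes, ← Algebra.smul_def, Submodule.Quotient.mk_smul]
      rfl
    rw [spectrum.mem_iff] at hμ
    apply hμ
    rw [← neg_sub]
    exact hunit.neg
  · have := congrArg (fun f => f (Submodule.Quotient.mk 1)) h0
    simp only [mulR_mk, one_mul, LinearMap.zero_apply] at this
    exact (Submodule.Quotient.mk_eq_zero M).mp this


section alg

/-- The closed disc of radius `R` as a type. -/
abbrev Disc (R : ℝ) : Type := Metric.closedBall (0 : ℂ) R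

instance (R : ℝ) : CompactSpace (Disc R) :=
  isCompact_iff_compactSpace.mp (isCompact_closedBall 0 R)

variable (A : Type*) [NormedRing A] [NormedAlgebra ℂ A] [CompleteSpace A] (R : ℝ)

noncomputable def cst : A →+* C(Disc R, A) where
  toFun c := ContinuousMap.const _ c
  map_one' := rfl
  map_mul' _ _ := rfl
  map_zero' := rfl
  map_add' _ _ := rfl

noncomputable def coord : C(Disc R, A) :=
  ⟨fun x => algebraMap ℂ A x, (continuous_algebraMap ℂ A).comp continuous_subtype_val⟩

theorem coord_comm (f : C(Disc R, A)) : coord A R * f = f * coord A R := by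
  ext x
  simp [coord, Algebra.commutes]

noncomputable def polyMap : A[X] →+* C(Disc R, A) :=
  Polynomial.eval₂RingHom' (cst A R) (coord A R) (fun _ => (coord_comm A R _).symm)

theorem polyMap_apply (q : A[X]) : polyMap A R q = q.eval₂ (cst A R) (coord A R) := rfl

theorem polyMap_C (c : A) : polyMap A R (C c) = cst A R c := by
  rw [polyMap_apply, Polynomial.eval₂_C]

theorem polyMap_X : polyMap A R X = coord A R := by
  rw [polyMap_apply, Polynomial.eval₂_X]

noncomputable def Psub : Subalgebra ℂ C(Disc R, A) where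
  toSubsemiring := (polyMap A R).rangeS
  algebraMap_mem' c := by
    refine ⟨C (algebraMap ℂ A c), ?_⟩
    rw [polyMap_C]
    rfl

noncomputable abbrev Bsub : Subalgebra ℂ C(Disc R, A) := (Psub A R).topologicalClosure

instance : CompleteSpace (Bsub A R) :=
  (Subalgebra.isClosed_topologicalClosure (Psub A R)).completeSpace_coe

noncomputable example : NormedRing (Bsub A R) := inferInstance
noncomputable example : NormedAlgebra ℂ (Bsub A R) := inferInstance

theorem polyMap_mem (q : A[X]) : polyMap A R q ∈ Bsub A R :=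
  Subalgebra.le_topologicalClosure _ ⟨q, rfl⟩

theorem cst_mem (c : A) : cst A R c ∈ Bsub A R := by
  have := polyMap_mem A R (C c)
  rwa [polyMap_C] at this

theorem coord_mem : coord A R ∈ Bsub A R := by
  have := polyMap_mem A R X
  rwa [polyMap_X] at this


noncomputable def cB : A →+* Bsub A R where
  toFun c := ⟨cst A R c, cst_mem A R c⟩
  map_one' := rfl
  map_mul' _ _ := rfl
  map_zero' := rfl
  map_add' _ _ := rfl

noncomputable def zB : Bsub A R := ⟨coord A R, coord_mem A R⟩

theorem zB_comm (f : Bsub A R) : zB A R * f = f * zB A R :=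
  Subtype.ext (coord_comm A R f)

/-- evaluation at a point of the disc -/
noncomputable def ev (x : Disc R) : Bsub A R →+* A where
  toFun f := (f : C(Disc R, A)) x
  map_one' := rfl
  map_mul' _ _ := rfl
  map_zero' := rfl
  map_add' _ _ := rfl

theorem ev_cB (x : Disc R) (c : A) : ev A R x (cB A R c) = c := rfl
theorem ev_zB (x : Disc R) : ev A R x (zB A R) = algebraMap ℂ A x := rfl

theorem norm_zB_mul (hR : 0 ≤ R) (f : Bsub A R) : ‖zB A R * f‖ ≤ R * ‖f‖ := by
  change ‖(coord A R * (f : C(Disc R, A)))‖ ≤ R * ‖(f : C(Disc R, A))‖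
  rw [ContinuousMap.norm_le _ (by positivity)]
  intro x
  have h1 : (coord A R * (f : C(Disc R, A))) x = (x : ℂ) • (f : C(Disc R, A)) x := by
    simp [coord, Algebra.smul_def]
  rw [h1, norm_smul]
  have hx : ‖(x : ℂ)‖ ≤ R := by
    have := x.2
    rwa [Metric.mem_closedBall, dist_zero_right] at this
  gcongr
  exact ContinuousMap.norm_coe_le_norm _ x

noncomputable def polyB : A[X] →+* Bsub A R where
  toFun q := ⟨polyMap A R q, polyMap_mem A R q⟩
  map_one' := Subtype.ext (map_one _)
  map_mul' p q := Subtype.ext (map_mul _ p q)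
  map_zero' := Subtype.ext (map_zero _)
  map_add' p q := Subtype.ext (map_add _ p q)

theorem polyB_monomial (n : ℕ) (c : A) : polyB A R (monomial n c) = cB A R c * zB A R ^ n := by
  apply Subtype.ext
  change polyMap A R (monomial n c) = cst A R c * coord A R ^ n
  rw [polyMap_apply, Polynomial.eval₂_monomial]

theorem dense_polyB (S : Set (Bsub A R)) (hS : IsClosed S) (h : ∀ q, polyB A R q ∈ S)
    (f : Bsub A R) : f ∈ S := by
  have h1 : f ∈ closure (Set.range (polyB A R)) := by
    rw [closure_subtype]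
    have h2 : ((Subtype.val : Bsub A R → C(Disc R, A)) '' (Set.range (polyB A R)))
        = (Psub A R : Set C(Disc R, A)) := by
      ext g
      constructor
      · rintro ⟨_, ⟨q, rfl⟩, rfl⟩
        exact ⟨q, rfl⟩
      · rintro ⟨q, rfl⟩
        exact ⟨_, ⟨q, rfl⟩, rfl⟩
    rw [h2]
    exact f.2
  refine closure_minimal ?_ hS h1
  rintro _ ⟨q, rfl⟩
  exact h q

theorem continuous_ev (x : Disc R) : Continuous (ev A R x) := by
  change Continuous (fun f : Bsub A R => (f : C(Disc R, A)) x)
  exact (continuous_eval_const x).comp continuous_subtype_val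

theorem continuous_cB : Continuous (cB A R) := by
  apply Continuous.subtype_mk
  exact ContinuousMap.continuous_const'

/-- Elements of `B` differ from their value at `μ` by an element of each closed left ideal
containing `z - μ`. -/
theorem sub_ev_mem (M : Submodule (Bsub A R) (Bsub A R)) (hM : IsClosed (M : Set (Bsub A R)))
    (x : Disc R) (hx : zB A R - algebraMap ℂ _ (x : ℂ) ∈ M) (f : Bsub A R) :
    f - cB A R (ev A R x f) ∈ M := by
  refine dense_polyB A R {g | g - cB A R (ev A R x g) ∈ M} ?_ ?_ f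
  · exact hM.preimage (continuous_id.sub ((continuous_cB A R).comp (continuous_ev A R x)))
  · intro q
    induction q using Polynomial.induction_on' with
    | add p q hp hq =>
      have := M.add_mem hp hq
      simp only [Set.mem_ofPred_eq, map_add] at this ⊢
      convert this using 1
      abel
    | monomial n c =>
      rw [Set.mem_ofPred_eq, polyB_monomial, map_mul, map_pow, ev_cB, ev_zB, map_mul, map_pow]
      have h1 : cB A R (algebraMap ℂ A x) = algebraMap ℂ (Bsub A R) x := rfl
      rw [h1, ← mul_sub]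
      have h2 : Commute (zB A R) (algebraMap ℂ (Bsub A R) x) := zB_comm A R _
      rw [← h2.geom_sum₂_mul, ← mul_assoc]
      exact M.smul_mem _ hx


/-- Bochner, Phillips, Allan: pointwise left invertible elements of `B` are left invertible. -/
theorem left_inv_of_pointwise (hR : 0 ≤ R) (f : Bsub A R)
    (hf : ∀ x : Disc R, ∃ c : A, c * ev A R x f = 1) : ∃ g : Bsub A R, g * f = 1 := by
  by_contra hno
  have hne : Ideal.span {f} ≠ (⊤ : Ideal (Bsub A R)) := by
    intro htop
    apply hno
    have h1 : (1 : Bsub A R) ∈ Ideal.span {f} := by rw [htop]; trivial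
    rw [Ideal.mem_span_singleton'] at h1
    exact h1
  obtain ⟨M, hM, hle⟩ := Ideal.exists_le_maximal _ hne
  have hfM : f ∈ M := hle (Ideal.mem_span_singleton_self f)
  obtain ⟨μ, hμ, hμM⟩ := exists_scalar (zB A R) (zB_comm A R) R (norm_zB_mul A R hR) M hM.out
  have hcl : IsClosed (M : Set (Bsub A R)) := by
    refine isClosed_of_closure_subset ?_
    intro x hx
    have : x ∈ Ideal.closure (M : Ideal (Bsub A R)) := hx
    rw [hM.closure_eq] at this
    exact this
  let x : Disc R := ⟨μ, by rwa [Metric.mem_closedBall, dist_zero_right]⟩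
  obtain ⟨c, hc⟩ := hf x
  have h1 : cB A R c * f ∈ M := M.smul_mem _ hfM
  have h2 := sub_ev_mem A R M hcl x hμM (cB A R c * f)
  rw [map_mul, ev_cB, hc, map_one] at h2
  have h3 : (1 : Bsub A R) ∈ M := by
    have := M.sub_mem h1 h2
    rwa [sub_sub_cancel] at this
  exact hM.ne_top ((Ideal.eq_top_iff_one M).mpr h3)

/-- `a - t z` in `B`. -/
noncomputable def pencil (a : A) (t : ℝ) : Bsub A R := cB A R a - (t : ℂ) • zB A R

theorem ev_pencil (a : A) (t : ℝ) (x : Disc R) :
    ev A R x (pencil A R a t) = a - algebraMap ℂ A (t * x) := by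
  change a - (t : ℂ) • (algebraMap ℂ A x) = _
  rw [map_mul, Algebra.smul_def]

theorem exists_unit (hR : 0 ≤ R) (a : A)
    (ha : ∀ w : ℂ, ‖w‖ ≤ R → ∃ c : A, c * (a - algebraMap ℂ A w) = 1) :
    ∃ k : (Bsub A R)ˣ, (k : Bsub A R) * cB A R a = cB A R a - zB A R := by
  -- the property along the segment
  let Q : ℝ → Prop := fun t => ∃ k : (Bsub A R)ˣ, (k : Bsub A R) * cB A R a = pencil A R a t
  have hloc : ∀ t ∈ Set.Icc (0 : ℝ) 1, ∃ δ > 0, ∀ s : ℝ, |s - t| < δ → (Q t ↔ Q s) := by
    intro t ht
    obtain ⟨L, hL⟩ : ∃ L : Bsub A R, L * pencil A R a t = 1 := by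
      apply left_inv_of_pointwise A R hR
      intro x
      rw [ev_pencil]
      apply ha
      have hx : ‖(x : ℂ)‖ ≤ R := by
        have := x.2
        rwa [Metric.mem_closedBall, dist_zero_right] at this
      rw [norm_mul, Complex.norm_real, Real.norm_eq_abs, abs_of_nonneg ht.1]
      calc t * ‖(x : ℂ)‖ ≤ 1 * ‖(x : ℂ)‖ := by gcongr; exact ht.2
        _ ≤ R := by rw [one_mul]; exact hx
    refine ⟨1 / (‖zB A R * L‖ + 1), by positivity, ?_⟩
    intro s hs
    have hsm : ‖((s - t : ℝ) : ℂ) • (zB A R * L)‖ < 1 := by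
      rw [norm_smul, Complex.norm_real, Real.norm_eq_abs]
      have h1 : 0 ≤ ‖zB A R * L‖ := norm_nonneg _
      rw [lt_div_iff₀ (by positivity)] at hs
      nlinarith [abs_nonneg (s - t)]
    let v : (Bsub A R)ˣ := Units.oneSub _ hsm
    have hv : (v : Bsub A R) * pencil A R a t = pencil A R a s := by
      change (1 - ((s - t : ℝ) : ℂ) • (zB A R * L)) * pencil A R a t = pencil A R a s
      rw [sub_mul, one_mul, smul_mul_assoc, mul_assoc, hL, mul_one]
      unfold pencil
      push_cast
      rw [sub_smul]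
      abel
    constructor
    · rintro ⟨k, hk⟩
      exact ⟨v * k, by rw [Units.val_mul, mul_assoc, hk, hv]⟩
    · rintro ⟨k, hk⟩
      refine ⟨v⁻¹ * k, ?_⟩
      rw [Units.val_mul, mul_assoc, hk, ← hv, Units.inv_mul_cancel_left]
  have h01 : Q 0 ↔ Q 1 := by
    refine isPreconnected_Icc.induction₂ (fun s t => Q s ↔ Q t) ?_ ?_ ?_
      (Set.left_mem_Icc.mpr zero_le_one) (Set.right_mem_Icc.mpr zero_le_one)
    · intro t ht
      obtain ⟨δ, hδ, h⟩ := hloc t ht
      apply mem_nhdsWithin_of_mem_nhds
      rw [Metric.mem_nhds_iff]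
      refine ⟨δ, hδ, fun s hs => h s ?_⟩
      simpa [Real.dist_eq] using hs
    · intro x y z _ _ _ h1 h2
      exact h1.trans h2
    · intro x y _ _ h
      exact h.symm
  have h0 : Q 0 := ⟨1, by simp [pencil]⟩
  obtain ⟨k, hk⟩ := h01.mp h0
  refine ⟨k, ?_⟩
  rw [hk]
  simp [pencil]


theorem exists_remainder (a : A) (q : A[X]) :
    ∃ (s : A) (w : Bsub A R), (cB A R a - zB A R) * w = cB A R s - polyB A R q := by
  induction q using Polynomial.induction_on' with
  | add p q hp hq =>
    obtain ⟨s, w, h⟩ := hp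
    obtain ⟨s', w', h'⟩ := hq
    refine ⟨s + s', w + w', ?_⟩
    rw [mul_add, h, h', map_add, map_add]
    abel
  | monomial n c =>
    have h2 : Commute (cB A R a) (zB A R) := (zB_comm A R _).symm
    refine ⟨a ^ n * c, (∑ i ∈ Finset.range n, cB A R a ^ i * zB A R ^ (n - 1 - i)) * cB A R c, ?_⟩
    have h3 : zB A R ^ n * cB A R c = cB A R c * zB A R ^ n := by
      have h4 : Commute (zB A R) (cB A R c) := zB_comm A R _
      exact (h4.pow_left n).eq
    rw [← mul_assoc, h2.mul_geom_sum₂, sub_mul, polyB_monomial, map_mul, map_pow, h3]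

theorem exists_left_inverse (hR : 0 ≤ R) (a L : A) (hL : L * a = 1)
    (ha : ∀ w : ℂ, ‖w‖ ≤ R → ∃ c : A, c * (a - algebraMap ℂ A w) = 1) :
    ∃ b : A, b * a = 1 ∧ ∀ w : ℂ, ‖w‖ ≤ R → IsUnit (1 - w • b) := by
  obtain ⟨k, hk⟩ := exists_unit A R hR a ha
  obtain ⟨q, hq⟩ : ∃ q : A[X],
      IsUnit ((k : Bsub A R) + (polyB A R q - k) * cB A R (1 - a * L)) := by
    by_contra hno
    push Not at hno
    have h1 := dense_polyB A R
      {f | ¬ IsUnit ((k : Bsub A R) + (f - k) * cB A R (1 - a * L))} ?_ hno k
    · apply h1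
      rw [sub_self, zero_mul, add_zero]
      exact k.isUnit
    · have h2 : IsOpen {f : Bsub A R | IsUnit f} := Units.isOpen
      have h3 : Continuous
          (fun f : Bsub A R => (k : Bsub A R) + (f - k) * cB A R (1 - a * L)) := by fun_prop
      exact (h2.preimage h3).isClosed_compl
  obtain ⟨s, w, hsw⟩ := exists_remainder A R a q
  have hp0a : (1 - a * L) * a = 0 := by rw [sub_mul, one_mul, mul_assoc, hL, mul_one, sub_self]
  have hp0aB : cB A R (1 - a * L) * cB A R a = 0 := by rw [← map_mul, hp0a, map_zero]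
  have hKa : ((k : Bsub A R) + (polyB A R q - k) * cB A R (1 - a * L)) * cB A R a
      = cB A R a - zB A R := by
    rw [add_mul, mul_assoc, hp0aB, mul_zero, add_zero, hk]
  have hk2 : (k : Bsub A R) = (cB A R a - zB A R) * cB A R L + k * cB A R (1 - a * L) := by
    rw [← hk, mul_assoc, ← mul_add, ← map_mul, ← map_add]
    simp
  set N : Bsub A R := cB A R a * (w * cB A R (1 - a * L)) with hN
  have hNN : N * N = 0 := by
    rw [hN]
    have : cB A R a * (w * cB A R (1 - a * L)) * (cB A R a * (w * cB A R (1 - a * L)))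
      = cB A R a * (w * (cB A R (1 - a * L) * cB A R a) * (w * cB A R (1 - a * L))) := by
      simp only [mul_assoc]
    rw [this, hp0aB, mul_zero, zero_mul, mul_zero]
  have hNunit : IsUnit (1 + N) := by
    refine ⟨⟨1 + N, 1 - N, ?_, ?_⟩, rfl⟩
    · rw [add_mul, one_mul, mul_sub, mul_one, hNN]; abel
    · rw [sub_mul, one_mul, mul_add, mul_one, hNN]; abel
  have hh : ((k : Bsub A R) + (polyB A R q - k) * cB A R (1 - a * L)) * (1 + N)
      = (cB A R a - zB A R) * cB A R L + cB A R (s * (1 - a * L)) := by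
    have e1 : cB A R (s * (1 - a * L)) = cB A R s * cB A R (1 - a * L) := map_mul _ _ _
    rw [mul_add, mul_one, hN, ← mul_assoc _ (cB A R a), hKa, ← mul_assoc, hsw, e1]
    nth_rewrite 1 [hk2]
    rw [sub_mul (polyB A R q), sub_mul (cB A R s)]
    abel
  have hunit : IsUnit ((cB A R a - zB A R) * cB A R L + cB A R (s * (1 - a * L))) := by
    rw [← hh]
    exact hq.mul hNunit
  have hev : ∀ x : ℂ, ‖x‖ ≤ R →
      IsUnit ((a - algebraMap ℂ A x) * L + s * (1 - a * L)) := by
    intro x hx
    let x' : Disc R := ⟨x, by rwa [Metric.mem_closedBall, dist_zero_right]⟩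
    have := hunit.map (ev A R x')
    rwa [map_add, map_mul, map_sub, ev_cB, ev_cB, ev_cB, ev_zB] at this
  obtain ⟨u, hu⟩ := hev 0 (by simpa using hR)
  rw [map_zero, sub_zero] at hu
  have hua : (u : A) * a = a := by
    rw [hu, add_mul, mul_assoc, hL, mul_one, mul_assoc, hp0a, mul_zero, add_zero]
  have hua' : ((u⁻¹ : Aˣ) : A) * a = a := by
    nth_rewrite 1 [← hua]
    rw [Units.inv_mul_cancel_left]
  refine ⟨L * ((u⁻¹ : Aˣ) : A), by rw [mul_assoc, hua', hL], ?_⟩
  intro x hx
  have h1 : (1 : A) - x • (L * ((u⁻¹ : Aˣ) : A))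
      = ((a - algebraMap ℂ A x) * L + s * (1 - a * L)) * ((u⁻¹ : Aˣ) : A) := by
    have h2 : (a - algebraMap ℂ A x) * L + s * (1 - a * L) = u - x • L := by
      rw [hu, sub_mul, Algebra.smul_def]
      abel
    rw [h2, sub_mul, Units.mul_inv, smul_mul_assoc]
  rw [h1]
  exact (hev x hx).mul (u⁻¹).isUnit

end alg

/-- Full affirmative answer: for every complex unital Banach algebra `A`, every left invertible
`a` with left invertibility radius `1` and every compact `K` in the open unit disc there is an
analytic `g` on an open `U ⊇ K` with `g(z)(a - z) = 1` and the first resolvent equation on `U`. -/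
theorem result (A : Type*) [NormedRing A] [NormedAlgebra ℂ A] [CompleteSpace A]
    (a : A) (ha : ∃ b : A, b * a = 1)
    (hr : IsLUB {α : ℝ | 0 < α ∧ ∀ z : ℂ, ‖z‖ < α → ∃ b : A, b * (a - algebraMap ℂ A z) = 1} 1)
    (K : Set ℂ) (hK : IsCompact K) (hKD : K ⊆ Metric.ball 0 1) :
    ∃ (U : Set ℂ) (g : ℂ → A), IsOpen U ∧ K ⊆ U ∧ DifferentiableOn ℂ g U ∧
      (∀ z ∈ U, g z * (a - algebraMap ℂ A z) = 1) ∧
      (∀ z ∈ U, ∀ w ∈ U, g z - g w = (z - w) • (g z * g w)) := by
  obtain ⟨L, hL⟩ := ha
  obtain ⟨R, hR0, hR1, hKR⟩ : ∃ R : ℝ, 0 ≤ R ∧ R < 1 ∧ ∀ z ∈ K, ‖z‖ ≤ R := by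
    rcases K.eq_empty_or_nonempty with rfl | hne
    · exact ⟨0, le_refl _, zero_lt_one, by simp⟩
    · obtain ⟨z, hz, hmax⟩ := hK.exists_isMaxOn hne (continuous_norm.continuousOn)
      refine ⟨‖z‖, norm_nonneg _, ?_, fun w hw => hmax hw⟩
      have := hKD hz
      rwa [Metric.mem_ball, dist_zero_right] at this
  have hloc : ∀ w : ℂ, ‖w‖ ≤ R → ∃ c : A, c * (a - algebraMap ℂ A w) = 1 := by
    intro w hw
    obtain ⟨α, hα, hRα⟩ := (lt_isLUB_iff hr).mp hR1
    exact hα.2 w (lt_of_le_of_lt hw hRα)
  obtain ⟨b, hba, hb⟩ := exists_left_inverse A R hR0 a L hL hloc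
  refine ⟨{z | IsUnit (1 - z • b)}, fun z => Ring.inverse (1 - z • b) * b, ?_, ?_, ?_, ?_, ?_⟩
  · have h2 : IsOpen {x : A | IsUnit x} := Units.isOpen
    have h3 : Continuous (fun z : ℂ => (1 : A) - z • b) := by fun_prop
    exact h2.preimage h3
  · intro z hz
    exact hb z (hKR z hz)
  · intro z hz
    apply DifferentiableAt.differentiableWithinAt
    apply DifferentiableAt.mul_const
    have h1 : DifferentiableAt ℂ (fun y : ℂ => (1 : A) - y • b) z := by fun_prop
    exact DifferentiableAt.comp (g := Ring.inverse) (f := fun y : ℂ => (1 : A) - y • b) z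
      (differentiableAt_inverse hz) h1
  · intro z hz
    change Ring.inverse (1 - z • b) * b * (a - algebraMap ℂ A z) = 1
    have h1 : b * (a - algebraMap ℂ A z) = 1 - z • b := by
      rw [mul_sub, hba, ← Algebra.commutes, Algebra.smul_def]
    rw [mul_assoc, h1, Ring.inverse_mul_cancel _ hz]
  · intro z hz w hw
    change Ring.inverse (1 - z • b) * b - Ring.inverse (1 - w • b) * b
      = (z - w) • (Ring.inverse (1 - z • b) * b * (Ring.inverse (1 - w • b) * b))
    have hcomm : Ring.inverse (1 - w • b) * b = b * Ring.inverse (1 - w • b) := by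
      have h1 : b * (1 - w • b) = (1 - w • b) * b := by
        rw [mul_sub, sub_mul, one_mul, mul_one, mul_smul_comm, smul_mul_assoc]
      calc Ring.inverse (1 - w • b) * b
          = Ring.inverse (1 - w • b) * (b * (1 - w • b)) * Ring.inverse (1 - w • b) := by
            rw [mul_assoc, mul_assoc, Ring.mul_inverse_cancel _ hw, mul_one]
        _ = b * Ring.inverse (1 - w • b) := by
            rw [h1, ← mul_assoc, Ring.inverse_mul_cancel _ hw, one_mul]
    have h2 : (z - w) • (b * b) = b * (1 - w • b) - (1 - z • b) * b := by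
      rw [mul_sub, sub_mul, one_mul, mul_one, mul_smul_comm, smul_mul_assoc, sub_smul]
      abel
    calc Ring.inverse (1 - z • b) * b - Ring.inverse (1 - w • b) * b
        = Ring.inverse (1 - z • b) * (b * (1 - w • b) - (1 - z • b) * b)
            * Ring.inverse (1 - w • b) := by
          rw [mul_sub, sub_mul, hcomm]
          congr 1
          · rw [← mul_assoc, mul_assoc _ (1 - w • b), Ring.mul_inverse_cancel _ hw, mul_one]
          · rw [← mul_assoc, Ring.inverse_mul_cancel _ hz, one_mul]
      _ = (z - w) • (Ring.inverse (1 - z • b) * b * (Ring.inverse (1 - w • b) * b)) := by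
          rw [← h2, hcomm]
          simp only [mul_smul_comm, smul_mul_assoc, mul_assoc]

end Pool.Agent.Results.MP_17a4eb_an.GlobalPseudoResolvent
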